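import Mathlib

set_option autoImplicit false

namespace Pool.Agent.H648Z.GH

/-- an infinite elementary abelian group, discrete -/
def V : Type := ℕ → ZMod 2

instance : AddCommGroup V := inferInstanceAs (AddCommGroup (ℕ → ZMod 2))
instance : Module (ZMod 2) V := inferInstanceAs (Module (ZMod 2) (ℕ → ZMod 2))
instance : TopologicalSpace V := ⊥
instance : DiscreteTopology V := ⟨rfl⟩
instance : Infinite V := inferInstanceAs (Infinite (ℕ → ZMod 2))

/-- the compact centre -/
abbrev W : Type := (ℕ × ℕ → ZMod 2) × UnitAddCircle

/-- the cocycle -/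
def B (v v' : V) : W := (fun p => v p.1 * v' p.2, 0)

lemma V_add (v v' : V) (i : ℕ) : (v + v') i = v i + v' i := rfl
lemma V_neg (v : V) (i : ℕ) : (-v) i = - v i := rfl
lemma V_zero (i : ℕ) : (0 : V) i = 0 := rfl

lemma B_add_left (a b c : V) : B (a + b) c = B a c + B b c := by
  refine Prod.ext (funext fun p => ?_) (by simp [B])
  simp [B, V_add, add_mul]

lemma B_add_right (a b c : V) : B a (b + c) = B a b + B a c := by
  refine Prod.ext (funext fun p => ?_) (by simp [B])
  simp [B, V_add, mul_add]

lemma B_zero_left (a : V) : B 0 a = 0 := by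
  refine Prod.ext (funext fun p => ?_) (by simp [B])
  simp [B, V_zero]

lemma B_zero_right (a : V) : B a 0 = 0 := by
  refine Prod.ext (funext fun p => ?_) (by simp [B])
  simp [B, V_zero]

lemma B_neg_left (a c : V) : B (-a) c = - B a c := by
  refine Prod.ext (funext fun p => ?_) (by simp [B])
  simp [B, V_neg]

lemma B_neg_right (a c : V) : B a (-c) = - B a c := by
  refine Prod.ext (funext fun p => ?_) (by simp [B])
  simp [B, V_neg]

/-- the group -/
def G : Type := V × W

instance : TopologicalSpace G := inferInstanceAs (TopologicalSpace (V × W))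
instance : T2Space G := inferInstanceAs (T2Space (V × W))
instance : LocallyCompactSpace G := inferInstanceAs (LocallyCompactSpace (V × W))

noncomputable instance : Mul G := ⟨fun x y => (x.1 + y.1, x.2 + y.2 + B x.1 y.1)⟩
noncomputable instance : One G := ⟨(0, 0)⟩
noncomputable instance : Inv G := ⟨fun x => (-x.1, -x.2 + B x.1 x.1)⟩

lemma mul_fst (x y : G) : (x * y).1 = x.1 + y.1 := rfl
lemma mul_snd (x y : G) : (x * y).2 = x.2 + y.2 + B x.1 y.1 := rfl
lemma one_fst : (1 : G).1 = 0 := rfl
lemma one_snd : (1 : G).2 = 0 := rfl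
lemma inv_fst (x : G) : (x⁻¹).1 = -x.1 := rfl
lemma inv_snd (x : G) : (x⁻¹).2 = -x.2 + B x.1 x.1 := rfl

noncomputable instance : Group G := Group.ofLeftAxioms
  (fun a b c => Prod.ext (by simp only [mul_fst, add_assoc])
    (by simp only [mul_fst, mul_snd, B_add_left, B_add_right]; abel))
  (fun a => Prod.ext (by simp only [mul_fst, one_fst, zero_add])
    (by simp only [mul_snd, one_fst, one_snd, B_zero_left, zero_add, add_zero]))
  (fun a => Prod.ext (by simp only [mul_fst, inv_fst, one_fst, neg_add_cancel])
    (by simp only [mul_snd, inv_fst, inv_snd, one_snd, B_neg_left]; abel))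

lemma cfst : Continuous fun x : G => x.1 := continuous_fst
lemma csnd : Continuous fun x : G => x.2 := continuous_snd

instance : IsTopologicalGroup G where
  continuous_mul := by
    have h1 : Continuous fun p : G × G => (p.1.1, p.2.1) :=
      (cfst.comp continuous_fst).prodMk (cfst.comp continuous_snd)
    refine Continuous.prodMk ?_ ?_
    · exact (continuous_of_discreteTopology (f := fun q : V × V => q.1 + q.2)).comp h1
    · exact ((csnd.comp continuous_fst).add (csnd.comp continuous_snd)).add
        ((continuous_of_discreteTopology (f := fun q : V × V => B q.1 q.2)).comp h1)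
  continuous_inv := by
    refine Continuous.prodMk ?_ ?_
    · exact (continuous_of_discreteTopology (f := fun q : V => -q)).comp cfst
    · exact csnd.neg.add ((continuous_of_discreteTopology (f := fun q : V => B q q)).comp cfst)

lemma compact_of_finite {F : Set V} (hF : F.Finite) {S : Set G} (hS : ∀ x ∈ S, x.1 ∈ F) :
    IsCompact (closure S) := by
  have h1 : IsCompact (F ×ˢ (Set.univ : Set W)) := hF.isCompact.prod isCompact_univ
  have h2 : IsCompact (show Set G from F ×ˢ (Set.univ : Set W)) := h1
  exact h2.closure_of_subset fun x hx => ⟨hS x hx, trivial⟩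

lemma sin : ∀ U ∈ nhds (1 : G), ∃ V ∈ nhds (1 : G), V ⊆ U ∧
    ∀ g x : G, x ∈ V → g * x * g⁻¹ ∈ V := by
  intro U hU
  refine ⟨U ∩ {x | x.1 = 0}, Filter.inter_mem hU ?_, Set.inter_subset_left, ?_⟩
  · exact ((isOpen_discrete ({0} : Set V)).preimage cfst).mem_nhds rfl
  · intro g x hx
    have h0 : x.1 = 0 := hx.2
    have : g * x = x * g := Prod.ext (by simp only [mul_fst, add_comm])
      (by simp only [mul_snd, h0, B_zero_left, B_zero_right, add_comm])
    rw [this, mul_inv_cancel_right]
    exact hx

lemma abel_compact (H : Subgroup G) (h : ∀ a ∈ H, ∀ b ∈ H, a * b = b * a) :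
    IsCompact (closure (H : Set G)) := by
  by_cases h0 : ∀ x ∈ H, x.1 = 0
  · exact compact_of_finite (Set.finite_singleton 0) h0
  · simp only [not_forall] at h0
    obtain ⟨a, ha, hne⟩ := h0
    refine compact_of_finite (F := {0, a.1}) (Set.toFinite _) fun b hb => ?_
    have h1 := congrArg Prod.snd (h a ha b hb)
    rw [mul_snd, mul_snd, add_comm a.2 b.2, add_right_inj] at h1
    have h2 : ∀ i j, a.1 i * b.1 j = b.1 i * a.1 j := fun i j =>
      congrFun (congrArg Prod.fst h1) (i, j)
    obtain ⟨i, hi⟩ : ∃ i, a.1 i ≠ 0 := by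
      by_contra hc
      simp only [not_exists, not_not] at hc
      exact hne (funext hc)
    have z : ∀ t : ZMod 2, t = 0 ∨ t = 1 := by decide
    have hi1 : a.1 i = 1 := (z _).resolve_left hi
    rcases z (b.1 i) with h3 | h3
    · left
      funext j
      have := h2 i j
      rw [hi1, h3, one_mul, zero_mul] at this
      exact this
    · right
      funext j
      have := h2 i j
      rw [hi1, h3, one_mul, one_mul] at this
      exact this

lemma loc_fin (K : Set G) (hK : IsCompact (closure K)) :
    IsCompact (closure ((Subgroup.closure K : Subgroup G) : Set G)) := by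
  have hF : ((fun x : G => x.1) '' closure K).Finite := (hK.image cfst).finite_of_discrete
  have h1 : Module.Finite (ZMod 2) (Submodule.span (ZMod 2) ((fun x : G => x.1) '' closure K)) :=
    Module.Finite.span_of_finite _ hF
  have h2 : Finite (Submodule.span (ZMod 2) ((fun x : G => x.1) '' closure K)) :=
    Module.finite_of_finite (ZMod 2)
  refine compact_of_finite (F := (Submodule.span (ZMod 2) ((fun x : G => x.1) '' closure K) : Set V))
    (Set.toFinite _) fun x hx => ?_
  induction hx using Subgroup.closure_induction with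
  | mem x hx => exact Submodule.subset_span ⟨x, subset_closure hx, rfl⟩
  | one => exact Submodule.zero_mem _
  | mul x y _ _ hx hy => exact Submodule.add_mem _ hx hy
  | inv x _ hx => exact Submodule.neg_mem _ hx

lemma not_td : ¬ TotallyDisconnectedSpace G := by
  intro h
  let f : UnitAddCircle → G := fun t => ((0 : V), ((0 : ℕ × ℕ → ZMod 2), t))
  have hf : Continuous f := continuous_const.prodMk (continuous_const.prodMk continuous_id)
  have h1 : (Set.range f).Subsingleton := (isPreconnected_range hf).subsingleton
  have h2 : ∀ s t : UnitAddCircle, s = t := fun s t =>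
    congrArg (fun x : G => x.2.2) (h1 ⟨s, rfl⟩ ⟨t, rfl⟩)
  have h3 := h2 ((1 / 2 : ℝ) : UnitAddCircle) 0
  rw [AddCircle.coe_eq_zero_iff] at h3
  obtain ⟨n, hn⟩ := h3
  simp only [zsmul_eq_mul, mul_one] at hn
  have h4 : ((2 * n : ℤ) : ℝ) = ((1 : ℤ) : ℝ) := by push_cast; linarith
  have h5 : 2 * n = 1 := by exact_mod_cast h4
  omega

lemma not_compact : ¬ CompactSpace G := by
  intro h
  have h1 : (Set.range fun x : G => x.1).Finite := (isCompact_range cfst).finite_of_discrete
  refine Set.infinite_univ (h1.subset fun v _ => ⟨((v, 0) : V × W), rfl⟩)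

end Pool.Agent.H648Z.GH
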